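import Mathlib

/-!
# Equal values of the sequences `H_a` and `H_b`

`H_42(49) = H_45(47)`.
-/

set_option autoImplicit false

open Finset Nat

namespace Pool.Agent.Results.MP_2d70c5_nt.EqualValues

/-- The number of permutations of an `n`-element set in which every cycle has length `1` or `d`:
`σ.cycleType` is the multiset of the lengths of the cycles of `σ` which are not fixed points. -/
noncomputable def H (d n : ℕ) : ℕ :=
  Fintype.card {σ : Equiv.Perm (Fin n) // ∀ c ∈ σ.cycleType, c = d}

theorem H_eq (d n : ℕ) (hd : 2 ≤ d) (h1 : d ≤ n) (h2 : n < 2 * d) :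
    H d n = 1 + n ! / ((n - d)! * d) := by
  classical
  unfold H
  rw [Fintype.card_subtype]
  have hsplit : (univ.filter fun σ : Equiv.Perm (Fin n) => ∀ c ∈ σ.cycleType, c = d) =
      (univ.filter fun σ : Equiv.Perm (Fin n) => σ.cycleType = 0) ∪
      (univ.filter fun σ : Equiv.Perm (Fin n) => σ.cycleType = {d}) := by
    ext σ
    simp only [mem_filter, mem_univ, true_and, mem_union]
    constructor
    · intro h
      have h3 := Multiset.eq_replicate_card.2 h
      have h4 : σ.cycleType.sum ≤ n := by
        have := σ.sum_cycleType_le
        rwa [Fintype.card_fin] at this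
      rw [h3, Multiset.sum_replicate, smul_eq_mul] at h4
      have h5 : Multiset.card σ.cycleType < 2 := by
        by_contra hcon
        push Not at hcon
        have := Nat.mul_le_mul_right d hcon
        omega
      have h6 : Multiset.card σ.cycleType = 0 ∨ Multiset.card σ.cycleType = 1 := by omega
      rcases h6 with h6 | h6
      · left
        exact Multiset.card_eq_zero.1 h6
      · right
        rw [h3, h6, Multiset.replicate_one]
    · rintro (h | h)
      · rw [h]
        intro c hc
        simp at hc
      · rw [h]
        intro c hc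
        rwa [Multiset.mem_singleton] at hc
  rw [hsplit, card_union_of_disjoint]
  · have e1 := Equiv.Perm.card_of_cycleType (Fin n) 0
    have e2 := Equiv.Perm.card_of_cycleType (Fin n) {d}
    rw [e1, e2]
    rw [if_pos (by simp), if_pos (by simp; omega)]
    simp only [Fintype.card_fin, Multiset.sum_zero, Multiset.prod_zero, Multiset.sum_singleton,
      Multiset.prod_singleton, Multiset.toFinset_zero, Finset.prod_empty, Multiset.toFinset_singleton,
      Finset.prod_singleton, Multiset.count_singleton_self, Nat.factorial_one, mul_one, Nat.sub_zero]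
    rw [Nat.div_self (Nat.factorial_pos n)]
  · rw [Finset.disjoint_left]
    intro σ h3 h4
    rw [mem_filter] at h3 h4
    rw [h3.2] at h4
    have := h4.2
    exact absurd this.symm (Multiset.singleton_ne_zero d)

theorem solution : H 42 49 = H 45 47 := by
  rw [H_eq 42 49 (by norm_num) (by norm_num) (by norm_num),
    H_eq 45 47 (by norm_num) (by norm_num) (by norm_num)]
  norm_num [Nat.factorial]

/-- **There are `2 ≤ a < b`, `n ≥ a`, `m ≥ b` with `H_a(n) = H_b(m)`.** -/
theorem result : ∃ a b n m : ℕ, 2 ≤ a ∧ a < b ∧ a ≤ n ∧ b ≤ m ∧ H a n = H b m :=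
  ⟨42, 45, 49, 47, by norm_num, by norm_num, by norm_num, by norm_num, solution⟩

end Pool.Agent.Results.MP_2d70c5_nt.EqualValues
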